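import Pool.Agent.Helper40.OL.Spec

/-!
# OL, part BD: basic properties of the boundary of a split system
-/

set_option autoImplicit false

namespace Pool.Agent.Helper29.OL

open Pool.Agent.Helper40.OL Finsupp

variable {G : Type} [Group G] (S : SplitSys G)

lemma bd_single (c : Cb S) : bd S (single c 1) = bdRec S c.1 c.2 := by
  simp [bd]

lemma fb_single (c : Cb S) : fb S (single c 1) = fbRec S c.1 c.2 := by
  simp [fb]

lemma sV_smul (a : ℕ) (g : G) (x : Vt S) : sV S a (g • x) = g • sV S a x := by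
  obtain ⟨n, v⟩ := x
  show (⟨n + 1, S.s n a (g • v)⟩ : Vt S) = ⟨n + 1, g • S.s n a v⟩
  rw [S.s_smul]

lemma sV_sV (a b : ℕ) (x : Vt S) (hab : a < b) (hb : b < x.1) :
    sV S (b + 1) (sV S a x) = sV S a (sV S b x) := by
  obtain ⟨n, v⟩ := x
  show (⟨n + 1 + 1, S.s (n + 1) (b + 1) (S.s n a v)⟩ : Vt S) =
    ⟨n + 1 + 1, S.s (n + 1) a (S.s n b v)⟩
  rw [S.s_s n a b v hab hb]

/-- the faces with the same bottom vertex -/
def Face1 (x : Vt S) (L : List ℕ) (c : Cb S) : Prop :=
  ∃ L1 b L2, L = L1 ++ b :: L2 ∧ c = (x, L1 ++ L2)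

/-- the faces with the same top vertex -/
def Face2 (x : Vt S) (L : List ℕ) (c : Cb S) : Prop :=
  ∃ L1 b L2, L = L1 ++ b :: L2 ∧ c = (sV S b x, L1 ++ L2.map (· + 1))

lemma mapDomain_mem_sup {X Y : Type} (f : X → Y) {T : Set X} {T' : Set Y} {z : X →₀ ℤ}
    (hz : z ∈ Sup T) (h : ∀ x ∈ T, f x ∈ T') : mapDomain f z ∈ Sup T' := by
  classical
  rw [Finsupp.mem_supported] at hz ⊢
  intro y hy
  have := Finsupp.mapDomain_support (Finset.mem_coe.1 hy)
  rw [Finset.mem_image] at this
  obtain ⟨x, hx, rfl⟩ := this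
  exact h x (hz hx)

lemma single_mem_sup {X : Type} {T : Set X} {x : X} (h : x ∈ T) (n : ℤ) :
    (single x n : X →₀ ℤ) ∈ Sup T :=
  Finsupp.single_mem_supported ℤ n h

lemma fbRec_mem (x : Vt S) (L : List ℕ) : fbRec S x L ∈ Sup {c | Face2 S x L c} := by
  induction L with
  | nil => exact Submodule.zero_mem _
  | cons a L ih =>
    show single (sV S a x, L.map (· + 1)) 1 - mapDomain (csA a) (fbRec S x L) ∈
      Sup {c | Face2 S x (a :: L) c}
    refine Submodule.sub_mem _
      (single_mem_sup (T := {c | Face2 S x (a :: L) c}) ⟨[], a, L, rfl, rfl⟩ _)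
      (mapDomain_mem_sup _ ih ?_)
    rintro c ⟨L1, b, L2, rfl, rfl⟩
    exact ⟨a :: L1, b, L2, rfl, rfl⟩

lemma bdRec_sub_mem (x : Vt S) (L : List ℕ) :
    bdRec S x L - fbRec S x L ∈ Sup {c | Face1 S x L c} := by
  induction L with
  | nil =>
    show (0 : Cb S →₀ ℤ) - 0 ∈ _
    rw [sub_zero]
    exact Submodule.zero_mem _
  | cons a L ih =>
    have e : bdRec S x (a :: L) - fbRec S x (a :: L) = - single (x, L) 1
        - mapDomain (csA a) (bdRec S x L - fbRec S x L) := by
      have h2 : mapDomain (csA a) (bdRec S x L - fbRec S x L) =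
          mapDomain (csA a) (bdRec S x L) - mapDomain (csA a) (fbRec S x L) :=
        (lmapDomain ℤ ℤ (csA a)).map_sub _ _
      rw [h2]
      show single (sV S a x, L.map (· + 1)) 1 - single (x, L) 1
        - mapDomain (csA a) (bdRec S x L) -
        (single (sV S a x, L.map (· + 1)) 1 - mapDomain (csA a) (fbRec S x L)) = _
      abel
    rw [e]
    refine Submodule.sub_mem _ (Submodule.neg_mem _
      (single_mem_sup (T := {c | Face1 S x (a :: L) c}) ⟨[], a, L, rfl, rfl⟩ _))
      (mapDomain_mem_sup _ ih ?_)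
    rintro c ⟨L1, b, L2, rfl, rfl⟩
    exact ⟨a :: L1, b, L2, rfl, rfl⟩

lemma bdRec_mem (x : Vt S) (L : List ℕ) :
    bdRec S x L ∈ Sup {c | Face1 S x L c ∨ Face2 S x L c} := by
  have e : bdRec S x L = (bdRec S x L - fbRec S x L) + fbRec S x L := by abel
  rw [e]
  refine Submodule.add_mem _ ?_ ?_
  · exact Finsupp.supported_mono (fun c hc => Or.inl hc) (bdRec_sub_mem S x L)
  · exact Finsupp.supported_mono (fun c hc => Or.inr hc) (fbRec_mem S x L)

lemma ok_face1 {k N : ℕ} {x : Vt S} {L : List ℕ} {c : Cb S} (h : Ok S (k + 1) (N + 1) (x, L))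
    (hc : Face1 S x L c) : Ok S k N c := by
  obtain ⟨L1, b, L2, rfl, rfl⟩ := hc
  obtain ⟨h1, h2, h3, h4⟩ := h
  simp only at h1 h2 h3 h4
  rw [List.pairwise_append] at h1
  obtain ⟨p1, p2, p3⟩ := h1
  rw [List.pairwise_cons] at p2
  refine ⟨?_, ?_, ?_, ?_⟩
  · rw [List.pairwise_append]
    exact ⟨p1, p2.2, fun a ha c hc => p3 a ha c (List.mem_cons_of_mem _ hc)⟩
  · intro a ha
    rcases List.mem_append.1 ha with ha | ha
    · exact h2 a (List.mem_append.2 (Or.inl ha))
    · exact h2 a (List.mem_append.2 (Or.inr (List.mem_cons_of_mem _ ha)))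
  · simp only [List.length_append, List.length_cons] at h3 ⊢
    omega
  · show x.1 + k = N
    omega

lemma ok_face2 {k N : ℕ} {x : Vt S} {L : List ℕ} {c : Cb S} (h : Ok S (k + 1) N (x, L))
    (hc : Face2 S x L c) : Ok S k N c := by
  obtain ⟨L1, b, L2, rfl, rfl⟩ := hc
  obtain ⟨h1, h2, h3, h4⟩ := h
  simp only at h1 h2 h3 h4
  rw [List.pairwise_append] at h1
  obtain ⟨p1, p2, p3⟩ := h1
  rw [List.pairwise_cons] at p2
  refine ⟨?_, ?_, ?_, ?_⟩
  · rw [List.pairwise_append]
    refine ⟨p1, ?_, ?_⟩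
    · rw [List.pairwise_map]
      exact p2.2.imp (fun h => by omega)
    · intro a ha c hc
      obtain ⟨d, hd, rfl⟩ := List.mem_map.1 hc
      have := p3 a ha d (List.mem_cons_of_mem _ hd)
      omega
  · intro a ha
    show a < x.1 + 1
    rcases List.mem_append.1 ha with ha | ha
    · have := h2 a (List.mem_append.2 (Or.inl ha))
      omega
    · obtain ⟨d, hd, rfl⟩ := List.mem_map.1 ha
      have := h2 d (List.mem_append.2 (Or.inr (List.mem_cons_of_mem _ hd)))
      omega
  · simp only [List.length_append, List.length_cons, List.length_map] at h3 ⊢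
    omega
  · show x.1 + 1 + k = N
    omega

/-- split the leaf `a` of a cube -/
def sA (a : ℕ) (c : Cb S) : Cb S := (sV S a c.1, c.2.map (· + 1))

lemma bd_csA (a : ℕ) (z : Cb S →₀ ℤ) :
    bd S (mapDomain (csA a) z) = mapDomain (sA S a) z - z - mapDomain (csA a) (bd S z) := by
  induction z using Finsupp.induction_linear with
  | zero => simp
  | add f g hf hg =>
    rw [mapDomain_add, map_add, hf, hg, mapDomain_add, map_add, mapDomain_add]
    abel
  | single c n =>
    have e1 : (single c n : Cb S →₀ ℤ) = n • single c 1 := by simp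
    rw [e1]
    simp only [mapDomain_smul, map_smul, mapDomain_single]
    rw [bd_single, bd_single, ← smul_sub, ← smul_sub]
    congr 1

lemma bdRec_sA (a : ℕ) (x : Vt S) (L : List ℕ) (h1 : L.Pairwise (· < ·)) (h2 : ∀ b ∈ L, b < x.1)
    (h3 : ∀ b ∈ L, a < b) :
    bdRec S (sV S a x) (L.map (· + 1)) = mapDomain (sA S a) (bdRec S x L) := by
  induction L with
  | nil => show (0 : Cb S →₀ ℤ) = mapDomain (sA S a) 0; simp
  | cons b L ih =>
    have hb : b < x.1 := h2 b (List.mem_cons_self)
    have hab : a < b := h3 b (List.mem_cons_self)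
    have ih' := ih (List.pairwise_cons.1 h1).2 (fun c hc => h2 c (List.mem_cons_of_mem _ hc))
      (fun c hc => h3 c (List.mem_cons_of_mem _ hc))
    show single (sV S (b + 1) (sV S a x), (L.map (· + 1)).map (· + 1)) 1
      - single (sV S a x, L.map (· + 1)) 1
      - mapDomain (csA (b + 1)) (bdRec S (sV S a x) (L.map (· + 1))) =
      mapDomain (sA S a) (single (sV S b x, L.map (· + 1)) 1 - single (x, L) 1
        - mapDomain (csA b) (bdRec S x L))
    rw [ih', sV_sV S a b x hab hb]
    have e : ∀ u v w : Cb S →₀ ℤ, mapDomain (sA S a) (u - v - w) =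
        mapDomain (sA S a) u - mapDomain (sA S a) v - mapDomain (sA S a) w := by
      intro u v w
      have := (lmapDomain ℤ ℤ (sA S a)).map_sub (u - v) w
      have h' := (lmapDomain ℤ ℤ (sA S a)).map_sub u v
      simp only [lmapDomain_apply] at this h'
      rw [this, h']
    rw [e, mapDomain_single, mapDomain_single, ← mapDomain_comp, ← mapDomain_comp]
    rfl

lemma bd_bdRec (x : Vt S) (L : List ℕ) (h1 : L.Pairwise (· < ·)) (h2 : ∀ b ∈ L, b < x.1) :
    bd S (bdRec S x L) = 0 := by
  induction L with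
  | nil => show bd S 0 = 0; simp
  | cons a L ih =>
    have hL := List.pairwise_cons.1 h1
    have ih' := ih hL.2 (fun c hc => h2 c (List.mem_cons_of_mem _ hc))
    show bd S (single (sV S a x, L.map (· + 1)) 1 - single (x, L) 1
      - mapDomain (csA a) (bdRec S x L)) = 0
    rw [map_sub, map_sub, bd_single, bd_single, bd_csA, ih']
    simp only
    rw [bdRec_sA S a x L hL.2 (fun c hc => h2 c (List.mem_cons_of_mem _ hc)) hL.1]
    rw [mapDomain_zero]
    abel

lemma bdRec_smul (g : G) (x : Vt S) (L : List ℕ) :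
    bdRec S (g • x) L = mapDomain (fun c : Cb S => (g • c.1, c.2)) (bdRec S x L) := by
  induction L with
  | nil => show (0 : Cb S →₀ ℤ) = mapDomain _ 0; simp
  | cons a L ih =>
    show single (sV S a (g • x), L.map (· + 1)) 1 - single (g • x, L) 1
      - mapDomain (csA a) (bdRec S (g • x) L) = mapDomain (fun c : Cb S => (g • c.1, c.2))
      (single (sV S a x, L.map (· + 1)) 1 - single (x, L) 1 - mapDomain (csA a) (bdRec S x L))
    have e : ∀ u v w : Cb S →₀ ℤ, mapDomain (fun c : Cb S => (g • c.1, c.2)) (u - v - w) =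
        mapDomain (fun c : Cb S => (g • c.1, c.2)) u - mapDomain (fun c : Cb S => (g • c.1, c.2)) v
          - mapDomain (fun c : Cb S => (g • c.1, c.2)) w := by
      intro u v w
      have := (lmapDomain ℤ ℤ (fun c : Cb S => (g • c.1, c.2))).map_sub (u - v) w
      have h' := (lmapDomain ℤ ℤ (fun c : Cb S => (g • c.1, c.2))).map_sub u v
      simp only [lmapDomain_apply] at this h'
      rw [this, h']
    rw [e, mapDomain_single, mapDomain_single, ← mapDomain_comp, ih, ← mapDomain_comp, sV_smul]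
    rfl

theorem bd_thm : S_BD := by
  intro G _ S
  refine ⟨bd_single S, fb_single S, ?_, ?_, ?_, ?_, ?_⟩
  · rintro k N ⟨x, L⟩ h
    exact Finsupp.supported_mono (fun c hc => ok_face2 S h hc) (fbRec_mem S x L)
  · rintro k N ⟨x, L⟩ h
    refine Finsupp.supported_mono (fun c hc => ?_) (bdRec_sub_mem S x L)
    obtain ⟨h1, h2, h3, h4⟩ := h
    have hN : N = x.1 + k + 1 := by
      simp only at h4; omega
    subst hN
    exact ⟨x.1 + k, rfl, ok_face1 S ⟨h1, h2, h3, h4⟩ hc⟩
  · rintro k N ⟨x, L⟩ h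
    exact bd_bdRec S x L h.1 h.2.1
  · intro g z
    induction z using Finsupp.induction_linear with
    | zero => simp
    | add f g hf hg => rw [mapDomain_add, map_add, hf, hg, map_add, mapDomain_add]
    | single c n =>
      have e1 : (single c n : Cb S →₀ ℤ) = n • single c 1 := by simp
      rw [e1]
      simp only [mapDomain_smul, map_smul, mapDomain_single]
      rw [bd_single, bd_single]
      congr 1
      exact bdRec_smul S g c.1 c.2
  · rintro N ⟨x, L⟩ ⟨h1, h2, h3, h4⟩
    obtain ⟨a, rfl⟩ := List.length_eq_one_iff.1 h3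
    show ((single (sV S a x, []) 1 - single (x, []) 1 - mapDomain (csA a) 0 : Cb S →₀ ℤ)).sum
      (fun _ a => a) = 0
    rw [mapDomain_zero, sub_zero, Finsupp.sum_sub_index (fun _ _ _ => rfl)]
    simp

end Pool.Agent.Helper29.OL
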