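import Pool.Agent.Helper29.OL.BD

/-!
# OL, part EXB: exactness of the cube complex below a vertex
-/

set_option autoImplicit false

namespace Pool.Agent.Helper29.OL

open Pool.Agent.Helper40.OL Finsupp

variable {G : Type} [Group G] (S : SplitSys G)

lemma le_level {x y : Vt S} (h : Le S x y) : x.1 ≤ y.1 := by
  induction h with
  | refl x => exact le_rfl
  | @step x y i hi h ih =>
    have : (sV S i x).1 = x.1 + 1 := rfl
    omega

/-- `i` is the smallest admissible leaf of `v`. -/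
def IsMin (y v : Vt S) (i : ℕ) : Prop :=
  (i < v.1 ∧ Le S (sV S i v) y) ∧ ∀ a, a < v.1 → Le S (sV S a v) y → i ≤ a

lemma exists_isMin {y v : Vt S} {a : ℕ} (ha : a < v.1) (h : Le S (sV S a v) y) :
    ∃ i, IsMin S y v i := by
  classical
  have hex : ∃ a, a < v.1 ∧ Le S (sV S a v) y := ⟨a, ha, h⟩
  exact ⟨Nat.find hex, Nat.find_spec hex, fun a ha h => Nat.find_min' hex ⟨ha, h⟩⟩

lemma isMin_unique {y v : Vt S} {i j : ℕ} (hi : IsMin S y v i) (hj : IsMin S y v j) : i = j :=
  le_antisymm (hi.2 j hj.1.1 hj.1.2) (hj.2 i hi.1.1 hi.1.2)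

open Classical in
/-- the homotopy on cubes -/
noncomputable def phiC (y : Vt S) (c : Cb S) : Cb S →₀ ℤ :=
  if h : ∃ i, IsMin S y c.1 i then
    if c.2.head? = some h.choose then 0 else single (c.1, h.choose :: c.2) 1
  else 0

lemma phiC_head {y : Vt S} {v : Vt S} {i : ℕ} (h : IsMin S y v i) (L : List ℕ) :
    phiC S y (v, i :: L) = 0 := by
  have hex : ∃ i, IsMin S y v i := ⟨i, h⟩
  have e : hex.choose = i := isMin_unique S hex.choose_spec h
  unfold phiC
  simp only [dif_pos hex, e, List.head?_cons, if_true]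

lemma phiC_lt {y : Vt S} {v : Vt S} {i : ℕ} (h : IsMin S y v i) (L : List ℕ) (hL : ∀ a ∈ L, i < a) :
    phiC S y (v, L) = single (v, i :: L) 1 := by
  have hex : ∃ i, IsMin S y v i := ⟨i, h⟩
  have e : hex.choose = i := isMin_unique S hex.choose_spec h
  unfold phiC
  simp only [dif_pos hex, e]
  rw [if_neg]
  intro h'
  have : i ∈ L := List.mem_of_mem_head? (by rw [h']; rfl)
  exact absurd (hL i this) (lt_irrefl _)

/-- the homotopy -/
noncomputable def phi (y : Vt S) : (Cb S →₀ ℤ) →ₗ[ℤ] (Cb S →₀ ℤ) :=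
  Finsupp.linearCombination ℤ (phiC S y)

lemma phi_single (y : Vt S) (c : Cb S) : phi S y (single c 1) = phiC S y c := by
  simp [phi]

lemma mem_below {y : Vt S} {k : ℕ} {v : Vt S} {L : List ℕ} :
    (v, L) ∈ Below S y k ↔ L.Pairwise (· < ·) ∧ (∀ a ∈ L, a < v.1) ∧ L.length = k ∧ Le S v y ∧
      ∀ a ∈ L, Le S (sV S a v) y := by
  constructor
  · rintro ⟨⟨N, h1, h2, h3, h4⟩, h5, h6⟩
    exact ⟨h1, h2, h3, h5, h6⟩
  · rintro ⟨h1, h2, h3, h5, h6⟩
    exact ⟨⟨_, h1, h2, h3, rfl⟩, h5, h6⟩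

variable {S}

lemma below_face1 {y : Vt S} {k : ℕ} {v : Vt S} {L : List ℕ} {c : Cb S}
    (h : (v, L) ∈ Below S y (k + 1)) (hc : Face1 S v L c) : c ∈ Below S y k := by
  have hh := h
  obtain ⟨⟨N, hok⟩, h5, h6⟩ := h
  obtain ⟨L1, b, L2, rfl, rfl⟩ := hc
  refine ⟨⟨v.1 + k, ok_face1 S ⟨hok.1, hok.2.1, hok.2.2.1, by simp [add_assoc]⟩
    ⟨L1, b, L2, rfl, rfl⟩⟩, h5, ?_⟩
  intro a ha
  apply h6
  rcases List.mem_append.1 ha with ha | ha
  · exact List.mem_append.2 (Or.inl ha)
  · exact List.mem_append.2 (Or.inr (List.mem_cons_of_mem _ ha))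

lemma le_of_lt_mem (h2 : Adm2 S) {y : Vt S} {k : ℕ} {v : Vt S} {L : List ℕ}
    (h : (v, L) ∈ Below S y k) {a b : ℕ} (ha : a ∈ L) (hb : b ∈ L) (hab : a < b) :
    Le S (sV S (b + 1) (sV S a v)) y ∧ Le S (sV S a (sV S b v)) y := by
  obtain ⟨p1, p2, p3, p4, p5⟩ := (mem_below S).1 h
  have := h2 v y a b hab (p2 b hb) (p5 a ha) (p5 b hb)
  exact ⟨this, by rw [← sV_sV S a b v hab (p2 b hb)]; exact this⟩

lemma below_face2 (h2 : Adm2 S) {y : Vt S} {k : ℕ} {v : Vt S} {L : List ℕ} {c : Cb S}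
    (h : (v, L) ∈ Below S y (k + 1)) (hc : Face2 S v L c) : c ∈ Below S y k := by
  have hh := h
  obtain ⟨⟨N, hok⟩, h5, h6⟩ := h
  obtain ⟨L1, b, L2, rfl, rfl⟩ := hc
  have hb : b ∈ L1 ++ b :: L2 := List.mem_append.2 (Or.inr List.mem_cons_self)
  have hp := hok.1
  simp only at hp
  rw [List.pairwise_append, List.pairwise_cons] at hp
  refine ⟨⟨N, ok_face2 S hok ⟨L1, b, L2, rfl, rfl⟩⟩, h6 b hb, ?_⟩
  intro a ha
  rcases List.mem_append.1 ha with ha | ha
  · exact (le_of_lt_mem h2 hh (List.mem_append.2 (Or.inl ha)) hb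
      (hp.2.2 a ha b List.mem_cons_self)).2
  · obtain ⟨d, hd, rfl⟩ := List.mem_map.1 ha
    exact (le_of_lt_mem h2 hh hb (List.mem_append.2 (Or.inr (List.mem_cons_of_mem _ hd)))
      (hp.2.1.1 d hd)).1

lemma isMin_sV (h2 : Adm2 S) (h3 : Adm3 S) {y v : Vt S} {i b : ℕ} (h : IsMin S y v i)
    (hib : i < b) (hb : b < v.1) (hle : Le S (sV S b v) y) : IsMin S y (sV S b v) i := by
  refine ⟨⟨lt_trans (lt_trans hib hb) (Nat.lt_succ_self _), ?_⟩, ?_⟩
  · rw [← sV_sV S i b v hib hb]
    exact h2 v y i b hib hb h.1.2 hle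
  · intro a ha hle'
    by_contra hai
    push Not at hai
    have hab : a < b := lt_trans hai hib
    have := h.2 a (lt_trans hab hb) (h3 v y a b hab hb hle hle')
    omega

lemma linComb_congr {X Y : Type} (f : X → (Y →₀ ℤ)) (g : X → Y) {T : Set X} {z : X →₀ ℤ}
    (hz : z ∈ Sup T) (h : ∀ x ∈ T, f x = single (g x) 1) :
    Finsupp.linearCombination ℤ f z = mapDomain g z := by
  rw [Finsupp.linearCombination_apply, Finsupp.mapDomain]
  refine Finsupp.sum_congr fun x hx => ?_
  rw [h x (hz hx)]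
  simp

lemma linComb_zero {X Y : Type} (f : X → (Y →₀ ℤ)) {T : Set X} {z : X →₀ ℤ}
    (hz : z ∈ Sup T) (h : ∀ x ∈ T, f x = 0) :
    Finsupp.linearCombination ℤ f z = 0 := by
  rw [Finsupp.linearCombination_apply, Finsupp.sum]
  refine Finset.sum_eq_zero fun x hx => ?_
  rw [h x (hz hx), smul_zero]

lemma linComb_mem {X Y : Type} (f : X → (Y →₀ ℤ)) {T : Set X} {T' : Set Y} {z : X →₀ ℤ}
    (hz : z ∈ Sup T) (h : ∀ x ∈ T, f x ∈ Sup T') :
    Finsupp.linearCombination ℤ f z ∈ Sup T' := by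
  rw [Finsupp.linearCombination_apply, Finsupp.sum]
  refine Submodule.sum_mem _ fun x hx => Submodule.smul_mem _ _ (h x (hz hx))

/-- the faces of a cube with all leaves `> i` have the same smallest admissible leaf and all leaves
`> i` -/
lemma faces_gt (h2 : Adm2 S) (h3 : Adm3 S) {y v : Vt S} {i : ℕ} (h : IsMin S y v i)
    {L : List ℕ} {k : ℕ} (hb : (v, L) ∈ Below S y k) (hL : ∀ a ∈ L, i < a) {c : Cb S}
    (hc : Face1 S v L c ∨ Face2 S v L c) : IsMin S y c.1 i ∧ ∀ a ∈ c.2, i < a := by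
  obtain ⟨p1, p2, p3, p4, p5⟩ := (mem_below S).1 hb
  rcases hc with ⟨L1, b, L2, rfl, rfl⟩ | ⟨L1, b, L2, rfl, rfl⟩
  · refine ⟨h, ?_⟩
    intro a ha
    apply hL
    rcases List.mem_append.1 ha with ha | ha
    · exact List.mem_append.2 (Or.inl ha)
    · exact List.mem_append.2 (Or.inr (List.mem_cons_of_mem _ ha))
  · have hbm : b ∈ L1 ++ b :: L2 := List.mem_append.2 (Or.inr List.mem_cons_self)
    refine ⟨isMin_sV h2 h3 h (hL b hbm) (p2 b hbm) (p5 b hbm), ?_⟩
    intro a ha
    rcases List.mem_append.1 ha with ha | ha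
    · exact hL a (List.mem_append.2 (Or.inl ha))
    · obtain ⟨d, hd, rfl⟩ := List.mem_map.1 ha
      have := hL d (List.mem_append.2 (Or.inr (List.mem_cons_of_mem _ hd)))
      omega

lemma phi_bdRec (h2 : Adm2 S) (h3 : Adm3 S) {y v : Vt S} {i : ℕ} (h : IsMin S y v i)
    {L : List ℕ} {k : ℕ} (hb : (v, L) ∈ Below S y k) (hL : ∀ a ∈ L, i < a) :
    phi S y (bdRec S v L) = mapDomain (csA i) (bdRec S v L) := by
  refine linComb_congr (phiC S y) (csA i) (bdRec_mem S v L) fun c hc => ?_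
  obtain ⟨q1, q2⟩ := faces_gt h2 h3 h hb hL hc
  exact phiC_lt S q1 c.2 q2

lemma phi_csA_bdRec (h2 : Adm2 S) (h3 : Adm3 S) {y v : Vt S} {i : ℕ} (h : IsMin S y v i)
    {L : List ℕ} {k : ℕ} (hb : (v, L) ∈ Below S y k) (hL : ∀ a ∈ L, i < a) :
    phi S y (mapDomain (csA i) (bdRec S v L)) = 0 := by
  have h1 : mapDomain (csA i) (bdRec S v L) ∈
      Sup {c : Cb S | ∃ c' : Cb S, (Face1 S v L c' ∨ Face2 S v L c') ∧ c = csA i c'} :=
    mapDomain_mem_sup _ (bdRec_mem S v L) fun c hc => ⟨c, hc, rfl⟩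
  refine linComb_zero (phiC S y) h1 ?_
  rintro c ⟨c', hc', rfl⟩
  obtain ⟨q1, q2⟩ := faces_gt h2 h3 h hb hL hc'
  exact phiC_head S q1 c'.2

/-- in a cube below `y` either the first leaf is the smallest admissible one, or all leaves are
larger -/
lemma gt_or {y v : Vt S} {i : ℕ} (h : IsMin S y v i) {L : List ℕ} {k : ℕ}
    (hb : (v, L) ∈ Below S y k) :
    (∃ L', L = i :: L' ∧ ∀ a ∈ L', i < a) ∨ ∀ a ∈ L, i < a := by
  obtain ⟨p1, p2, p3, p4, p5⟩ := (mem_below S).1 hb
  cases L with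
  | nil => exact Or.inr (by simp)
  | cons a L =>
    have ha := h.2 a (p2 a List.mem_cons_self) (p5 a List.mem_cons_self)
    rcases eq_or_lt_of_le ha with rfl | hlt
    · exact Or.inl ⟨L, rfl, (List.pairwise_cons.1 p1).1⟩
    · right
      intro b hbm
      rcases List.mem_cons.1 hbm with rfl | hbm
      · exact hlt
      · exact lt_trans hlt ((List.pairwise_cons.1 p1).1 b hbm)

/-- `phi` maps cubes below `y` to cubes below `y` with the same vertex -/
lemma phiC_mem {y : Vt S} {k : ℕ} {c : Cb S} (hb : c ∈ Below S y k) :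
    phiC S y c ∈ Sup {c' | c' ∈ Below S y (k + 1) ∧ c'.1 = c.1} := by
  obtain ⟨v, L⟩ := c
  by_cases hex : ∃ i, IsMin S y v i
  · obtain ⟨i, hi⟩ := hex
    rcases gt_or hi hb with ⟨L', rfl, -⟩ | hL
    · rw [phiC_head S hi]; exact Submodule.zero_mem _
    · rw [phiC_lt S hi L hL]
      refine single_mem_sup (T := {c' | c' ∈ Below S y (k + 1) ∧ c'.1 = v}) ⟨?_, rfl⟩ _
      obtain ⟨p1, p2, p3, p4, p5⟩ := (mem_below S).1 hb
      refine (mem_below S).2 ⟨List.pairwise_cons.2 ⟨hL, p1⟩, ?_, by simp [p3], p4, ?_⟩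
      · intro a ha
        rcases List.mem_cons.1 ha with rfl | ha
        · exact hi.1.1
        · exact p2 a ha
      · intro a ha
        rcases List.mem_cons.1 ha with rfl | ha
        · exact hi.1.2
        · exact p5 a ha
  · have : phiC S y (v, L) = 0 := by
      unfold phiC
      simp only [dif_neg hex]
    rw [this]; exact Submodule.zero_mem _

/-- the cubes below `y` whose vertex has level `≥ m` -/
def BelowM (S : SplitSys G) (y : Vt S) (k m : ℕ) : Set (Cb S) := {c | c ∈ Below S y k ∧ m ≤ c.1.1}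

lemma phi_mem {y : Vt S} {k m : ℕ} {z : Cb S →₀ ℤ} (hz : z ∈ Sup (BelowM S y k m)) :
    phi S y z ∈ Sup (BelowM S y (k + 1) m) := by
  refine linComb_mem _ hz fun c hc => ?_
  refine Finsupp.supported_mono (fun c' hc' => ?_) (phiC_mem hc.1)
  exact ⟨hc'.1, by rw [hc'.2]; exact hc.2⟩

/-- the shift `Θ = id + bd φ + φ bd` raises the level -/
lemma theta_cube (h2 : Adm2 S) (h3 : Adm3 S) {y : Vt S} {k m : ℕ} {c : Cb S}
    (hc : c ∈ BelowM S y (k + 1) m) :
    single c 1 + bd S (phi S y (single c 1)) + phi S y (bd S (single c 1)) ∈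
      Sup (BelowM S y (k + 1) (m + 1)) := by
  obtain ⟨v, L⟩ := c
  obtain ⟨hb, hm⟩ := hc
  obtain ⟨p1, p2, p3, p4, p5⟩ := (mem_below S).1 hb
  have hne : ∃ a, a ∈ L := by
    cases L with
    | nil => simp at p3
    | cons a L => exact ⟨a, List.mem_cons_self⟩
  obtain ⟨a₀, ha₀⟩ := hne
  obtain ⟨i, hi⟩ := exists_isMin S (p2 a₀ ha₀) (p5 a₀ ha₀)
  rw [phi_single, bd_single]
  simp only at hm ⊢
  rcases gt_or hi hb with ⟨L', rfl, hL'⟩ | hL
  · -- the first leaf is `i`
    have hb' : (v, L') ∈ Below S y k := below_face1 hb ⟨[], i, L', rfl, rfl⟩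
    have hb'' : (sV S i v, L'.map (· + 1)) ∈ Below S y k := below_face2 h2 hb ⟨[], i, L', rfl, rfl⟩
    rw [phiC_head S hi, map_zero, add_zero]
    have e : bdRec S v (i :: L') = single (sV S i v, L'.map (· + 1)) 1 - single (v, L') 1
      - mapDomain (csA i) (bdRec S v L') := rfl
    rw [e, map_sub, map_sub, phi_single, phi_single, phi_csA_bdRec h2 h3 hi hb' hL',
      phiC_lt S hi L' hL', sub_zero]
    have e2 : (single (v, i :: L') 1 : Cb S →₀ ℤ) +
        (phiC S y (sV S i v, L'.map (· + 1)) - single (v, i :: L') 1) =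
        phiC S y (sV S i v, L'.map (· + 1)) := by abel
    rw [e2]
    refine Finsupp.supported_mono (fun c' hc' => ?_) (phiC_mem hb'')
    refine ⟨hc'.1, ?_⟩
    rw [hc'.2]
    show m + 1 ≤ v.1 + 1
    omega
  · rw [phiC_lt S hi L hL, bd_single, phi_bdRec h2 h3 hi hb hL]
    have e : bdRec S v (i :: L) = single (sV S i v, L.map (· + 1)) 1 - single (v, L) 1
      - mapDomain (csA i) (bdRec S v L) := rfl
    simp only
    rw [e]
    have e2 : (single (v, L) 1 : Cb S →₀ ℤ) +
        (single (sV S i v, L.map (· + 1)) 1 - single (v, L) 1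
      - mapDomain (csA i) (bdRec S v L)) + mapDomain (csA i) (bdRec S v L) =
        single (sV S i v, L.map (· + 1)) 1 := by abel
    rw [e2]
    have hbig : (v, i :: L) ∈ Below S y (k + 2) := by
      refine (mem_below S).2 ⟨List.pairwise_cons.2 ⟨hL, p1⟩, ?_, by simp [p3], p4, ?_⟩
      · intro a ha
        rcases List.mem_cons.1 ha with rfl | ha
        · exact hi.1.1
        · exact p2 a ha
      · intro a ha
        rcases List.mem_cons.1 ha with rfl | ha
        · exact hi.1.2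
        · exact p5 a ha
    refine single_mem_sup (T := BelowM S y (k + 1) (m + 1))
      ⟨below_face2 h2 hbig ⟨[], i, L, rfl, rfl⟩, ?_⟩ _
    show m + 1 ≤ v.1 + 1
    omega

/-- the shift -/
noncomputable def Th (S : SplitSys G) (y : Vt S) : (Cb S →₀ ℤ) →ₗ[ℤ] (Cb S →₀ ℤ) :=
  LinearMap.id + bd S ∘ₗ phi S y + phi S y ∘ₗ bd S

lemma Th_apply (y : Vt S) (z : Cb S →₀ ℤ) :
    Th S y z = z + bd S (phi S y z) + phi S y (bd S z) := rfl

lemma Th_mem (h2 : Adm2 S) (h3 : Adm3 S) {y : Vt S} {k m : ℕ} {z : Cb S →₀ ℤ}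
    (hz : z ∈ Sup (BelowM S y (k + 1) m)) : Th S y z ∈ Sup (BelowM S y (k + 1) (m + 1)) := by
  have e : Th S y z = Finsupp.linearCombination ℤ (fun c => Th S y (single c 1)) z := by
    rw [Finsupp.linearCombination_apply]
    conv_lhs => rw [← Finsupp.sum_single z]
    rw [Finsupp.sum, Finsupp.sum, map_sum]
    refine Finset.sum_congr rfl fun c _ => ?_
    rw [← map_smul]
    simp
  rw [e]
  exact linComb_mem _ hz fun c hc => theta_cube h2 h3 hc

lemma exact_aux (h2 : Adm2 S) (h3 : Adm3 S) (y : Vt S) (k : ℕ) (n : ℕ) :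
    ∀ m, y.1 < m + n → ∀ z ∈ Sup (BelowM S y (k + 1) m), bd S z = 0 →
      ∃ w ∈ Sup (Below S y (k + 2)), bd S w = z := by
  induction n with
  | zero =>
    intro m hm z hz _
    have : z = 0 := by
      have hempty : BelowM S y (k + 1) m = ∅ := by
        ext c
        simp only [Set.mem_empty_iff_false, iff_false]
        rintro ⟨hc, hmc⟩
        have := le_level S hc.2.1
        omega
      rw [hempty] at hz
      have h0 : z ∈ (⊥ : Submodule ℤ (Cb S →₀ ℤ)) := by
        rw [← Finsupp.supported_empty]; exact hz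
      exact (Submodule.mem_bot ℤ).1 h0
    subst this
    exact ⟨0, Submodule.zero_mem _, map_zero _⟩
  | succ n ih =>
    intro m hm z hz hbz
    have h1 := Th_mem h2 h3 hz
    have hbb : bd S (bd S (phi S y z)) = 0 := by
      have hph := phi_mem hz
      rw [show bd S (bd S (phi S y z)) = (bd S ∘ₗ bd S) (phi S y z) from rfl]
      have e : (bd S ∘ₗ bd S) (phi S y z) =
          Finsupp.linearCombination ℤ (fun c => bd S (bdRec S c.1 c.2)) (phi S y z) := by
        rw [Finsupp.linearCombination_apply]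
        conv_lhs => rw [← Finsupp.sum_single (phi S y z)]
        rw [Finsupp.sum, Finsupp.sum, map_sum]
        refine Finset.sum_congr rfl fun c _ => ?_
        rw [LinearMap.comp_apply, show (single c (phi S y z c) : Cb S →₀ ℤ) =
          (phi S y z c) • single c 1 by simp, map_smul, map_smul, bd_single]
      rw [e]
      refine linComb_zero _ hph fun c hc => ?_
      obtain ⟨⟨⟨N, hok⟩, -, -⟩, -⟩ := hc
      exact bd_bdRec S c.1 c.2 hok.1 hok.2.1
    have hTh : Th S y z = z + bd S (phi S y z) := by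
      rw [Th_apply, hbz, map_zero, add_zero]
    have h4 : bd S (Th S y z) = 0 := by rw [hTh, map_add, hbz, hbb, add_zero]
    obtain ⟨w, hw, hbw⟩ := ih (m + 1) (by omega) _ h1 h4
    refine ⟨w - phi S y z, Submodule.sub_mem _ hw ?_, ?_⟩
    · exact Finsupp.supported_mono (fun c hc => hc.1) (phi_mem hz)
    · rw [map_sub, hbw, hTh]; abel

lemma exact_zero (y : Vt S) (x : Vt S) (h : Le S x y) : ∃ w ∈ Sup (Below S y 1),
    bd S w = single (x, []) 1 - single (y, []) 1 := by
  induction h with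
  | refl x => exact ⟨0, Submodule.zero_mem _, by simp⟩
  | @step x y i hi h ih =>
    obtain ⟨w, hw, hbw⟩ := ih
    refine ⟨w - single (x, [i]) 1, Submodule.sub_mem _ hw (single_mem_sup ?_ _), ?_⟩
    · refine (mem_below S).2 ⟨List.pairwise_singleton _ _, ?_, rfl, Le.step i hi h, ?_⟩
      · intro a ha
        rw [List.mem_singleton] at ha
        rw [ha]; exact hi
      · intro a ha
        rw [List.mem_singleton] at ha
        rw [ha]; exact h
    · rw [map_sub, hbw, bd_single]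
      show _ - (single (sV S i x, []) 1 - single (x, []) 1 - mapDomain (csA i) 0) = _
      rw [mapDomain_zero]
      abel

theorem exb_thm : S_EXB := by
  intro G _ S h2 h3 y
  refine ⟨?_, ?_⟩
  · intro k z hz hbz
    refine exact_aux h2 h3 y k (y.1 + 1) 0 (by omega) z ?_ hbz
    have hsub : Below S y (k + 1) ⊆ BelowM S y (k + 1) 0 := fun c hc => ⟨hc, Nat.zero_le _⟩
    exact Finsupp.supported_mono hsub hz
  · intro z hz
    induction z using Finsupp.induction with
    | zero => exact ⟨0, Submodule.zero_mem _, by simp⟩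
    | single_add c n f hc hn ih =>
      have hsupp : ∀ d ∈ (single c n + f : Cb S →₀ ℤ).support, d ∈ Below S y 0 := fun d hd => hz hd
      have hcB : c ∈ Below S y 0 := by
        apply hsupp
        rw [Finsupp.mem_support_iff, Finsupp.add_apply, Finsupp.single_eq_same,
          Finsupp.notMem_support_iff.1 hc, add_zero]
        exact hn
      have hfB : f ∈ Sup (Below S y 0) := by
        intro d hd
        apply hsupp
        have hd' : f d ≠ 0 := Finsupp.mem_support_iff.1 hd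
        have hdc : c ≠ d := by
          rintro rfl
          exact hc hd
        rw [Finsupp.mem_support_iff, Finsupp.add_apply, Finsupp.single_eq_of_ne' hdc, zero_add]
        exact hd'
      obtain ⟨w, hw, hbw⟩ := ih hfB
      obtain ⟨v, L⟩ := c
      obtain ⟨p1, p2, p3, p4, p5⟩ := (mem_below S).1 hcB
      have hL : L = [] := List.eq_nil_of_length_eq_zero p3
      subst hL
      obtain ⟨w', hw', hbw'⟩ := exact_zero y v p4
      refine ⟨n • w' + w, Submodule.add_mem _ (Submodule.smul_mem _ _ hw') hw, ?_⟩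
      rw [map_add, map_smul, hbw, hbw', Finsupp.sum_add_index' (fun _ => rfl) (fun _ _ _ => rfl),
        Finsupp.sum_single_index rfl, add_smul, smul_sub]
      have : n • (single (v, ([] : List ℕ)) 1 : Cb S →₀ ℤ) = single (v, []) n := by simp
      rw [this]
      abel

end Pool.Agent.Helper29.OL
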